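import Pool.Agent.Y871.LW.Stm
import Pool.Agent.Y843.HS.PartB

/-!
# The W-trick for vectors of shifts (job LW-GEN for helper871)

Adapted from `Pool/Agent/Y843/HS/PartB.lean` (helper843).
-/

set_option autoImplicit false

namespace Pool.Agent.Y73.LW

open Finset
open Pool.Agent.Y843.HS
open Pool.Agent.Y871.LW

theorem pull_inj {p b W : ℕ} (hp : p.Prime) (hW : ¬ p ∣ W) :
    Set.InjOn (fun c => (b + W * (c + (p - 1))) % p) (range p : Set ℕ) := by
  intro c hc d hd h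
  rw [mem_coe, mem_range] at hc hd
  have h1 : b + W * (c + (p - 1)) ≡ b + W * (d + (p - 1)) [MOD p] := h
  have h2 := Nat.ModEq.add_left_cancel' b h1
  have hcop : Nat.gcd p W = 1 := (Nat.Prime.coprime_iff_not_dvd hp).2 hW
  have h3 := Nat.ModEq.cancel_left_of_coprime hcop h2
  have h4 := Nat.ModEq.add_right_cancel' (p - 1) h3
  have h5 : c % p = d % p := h4
  rwa [Nat.mod_eq_of_lt hc, Nat.mod_eq_of_lt hd] at h5

theorem pull_eq {p b W i : ℕ} (hp : 0 < p) (hi : 1 ≤ i) :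
    (b + W * (i % p + (p - 1))) % p = (b + W * (i - 1)) % p := by
  have e1 : b + W * (i % p + (p - 1)) ≡ b + W * (i + (p - 1)) [MOD p] :=
    Nat.ModEq.add_left _ (Nat.ModEq.mul_left _ (Nat.ModEq.add_right _ (Nat.mod_modEq _ _)))
  have e2 : b + W * (i + (p - 1)) = b + W * (i - 1) + W * p := by
    have e4 : i + (p - 1) = (i - 1) + p := by omega
    rw [e4, mul_add]
    omega
  rw [e2] at e1
  have e3 : b + W * (i - 1) + W * p ≡ b + W * (i - 1) [MOD p] := by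
    unfold Nat.ModEq
    rw [Nat.add_mul_mod_self_right]
  exact e1.trans e3

theorem card_adm {Z : ℕ → Finset ℕ} {s : ℕ} (u : ℕ) (hZ : ∀ p ∈ Pr 0 s, ∀ c ∈ Z p, c < p) :
    ((((range (∏ p ∈ Pr 0 s, p)).filter (fun a => ∀ p ∈ Pr 0 s, (a + u) % p ∉ Z p)).card : ℕ) : ℝ) =
      ((∏ p ∈ Pr 0 s, p : ℕ) : ℝ) * VV Z 0 s := by
  classical
  have hcard : ∀ p ∈ Pr 0 s, ((range p).filter (fun c => (c + u) % p ∈ Z p)).card = (Z p).card := by
    intro p hp
    have h1 := card_pull (b := u + 1) (W := 1) (Pr_prime hp) (Pr_prime hp).not_dvd_one (hZ p hp)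
    rw [← h1]
    congr 1
    apply filter_congr
    intro c _
    have h2 : u + 1 + 1 * (c + (p - 1)) = c + u + p := by
      have := (Pr_prime hp).pos
      omega
    rw [h2, Nat.add_mod_right]
  have h1 := prod_adm (Z := fun p => (range p).filter (fun c => (c + u) % p ∈ Z p)) (s := s)
    (fun p _ c hc => mem_range.1 (mem_filter.1 hc).1)
  have h2 : VV (fun p => (range p).filter (fun c => (c + u) % p ∈ Z p)) 0 s = VV Z 0 s := by
    unfold VV
    apply prod_congr rfl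
    intro p hp
    rw [hcard p hp]
  rw [h2] at h1
  rw [← h1]
  congr 2
  apply filter_congr
  intro a _
  apply forall₂_congr
  intro p hp
  rw [mem_filter, mem_filter, mem_range]
  have h3 := Nat.mod_lt a (Pr_prime hp).pos
  rw [Nat.mod_add_mod]
  tauto

/-- one class of the W-trick -/
theorem core {k q r e s Y N W H c : ℕ} {δ' : ℝ} {A Xs : Fin q → ℕ} {Z : Fin q → ℕ → Finset ℕ}
    {φ : Fin q → ℕ → ℕ} (hW1 : 1 ≤ W) (hWp : ∀ p ∈ Pr s Y, ¬ p ∣ W)
    (hZ : ∀ l, ∀ p ∈ Pr s Y, (Z l p).card ≤ r ∧ ∀ c ∈ Z l p, c < p)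
    (hφ1 : ∀ l m, ∀ i ∈ Icc 1 (2 * H), ∀ j ∈ Icc 1 (2 * H), i ≡ j [MOD m] →
      φ l i ≡ φ l j [MOD m])
    (hφ2 : ∀ l, ∀ p ∈ Pr s Y, ∀ c : ℕ,
      (((Icc 1 (2 * H)).filter (fun i => φ l i % p = c)).image (fun i => i % p)).card ≤ e)
    (hc1 : 1 ≤ c) (hcN : c + W * (N - 1) ≤ 2 * H) (x0 : Fin q → ℕ)
    (T : Finset ((Fin q → ℕ) × ℕ))
    (hTA : ∀ t ∈ T, t.1 ∈ bx A Xs) (hTx : ∀ t ∈ T, ∀ l, t.1 l % W = x0 l)
    (hTi : ∀ t ∈ T, ∃ i', 1 ≤ i' ∧ 2 * i' < N ∧ t.2 = c + W * (i' - 1))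
    (hTZ : ∀ t ∈ T, ∀ l, ∀ p ∈ Pr s Y, (t.1 l + φ l t.2) % p ∉ Z l p)
    (hPA : ∀ Z' : Fin q → ℕ → Finset ℕ, (∀ l, Sv r s Y (Z' l)) →
      ∀ φ' : Fin q → ℕ → ℕ, (∀ l, PC e s Y N (φ' l)) → ∀ T' : Finset ((Fin q → ℕ) × ℕ),
      (∀ t ∈ T', t.1 ∈ bx (fun l => A l / W) (fun l => Xs l / W + 2) ∧ 1 ≤ t.2 ∧ 2 * t.2 < N) →
      (∀ t ∈ T', ∀ l, ∀ p ∈ Pr s Y, (t.1 l + φ' l t.2) % p ∉ Z' l p) →
      δ' * (∏ l, ((Xs l / W + 2 : ℕ) : ℝ)) * N * ∏ l, VV (Z' l) s Y ≤ T'.card →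
      ∃ (x : Fin q → ℕ) (b d : ℕ), 1 ≤ d ∧ d < N ∧ ∀ j < k, (x, b + j * d) ∈ T')
    (hk : 1 ≤ k)
    (hcard : δ' * (∏ l, ((Xs l / W + 2 : ℕ) : ℝ)) * N * ∏ l, VV (Z l) s Y ≤ T.card) :
    ∃ (x : Fin q → ℕ) (b d : ℕ), 1 ≤ d ∧ d ≤ W * N ∧ ∀ j < k, (x, b + j * d) ∈ T := by
  classical
  -- the new functions
  set φ' : Fin q → ℕ → ℕ := fun l i => (φ l (c + W * (i - 1)) + (W - 1) * φ l c) / W with hφ'
  have hWφ : ∀ l, ∀ i, 1 ≤ i → i ≤ N →
      W * φ' l i = φ l (c + W * (i - 1)) + (W - 1) * φ l c := by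
    intro l i hi1 hi2
    rw [hφ']
    apply Nat.mul_div_cancel'
    have hmem : c + W * (i - 1) ∈ Icc 1 (2 * H) := by
      rw [mem_Icc]
      have : W * (i - 1) ≤ W * (N - 1) := Nat.mul_le_mul_left _ (by omega)
      omega
    have hmem' : c ∈ Icc 1 (2 * H) := by
      rw [mem_Icc]
      omega
    have h1 := hφ1 l W _ hmem _ hmem' (by
      unfold Nat.ModEq
      rw [Nat.add_mul_mod_self_left])
    have h2 : φ l (c + W * (i - 1)) + (W - 1) * φ l c ≡ φ l c + (W - 1) * φ l c [MOD W] :=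
      Nat.ModEq.add_right _ h1
    have h3 : φ l c + (W - 1) * φ l c = W * φ l c := by
      obtain ⟨w, hw⟩ : ∃ w, W = w + 1 := ⟨W - 1, by omega⟩
      rw [hw, Nat.add_sub_cancel]
      ring
    rw [h3] at h2
    have h4 : W * φ l c ≡ 0 [MOD W] := by
      unfold Nat.ModEq
      simp
    exact (Nat.modEq_zero_iff_dvd.1 (h2.trans h4))
  -- the new classes
  set bb : Fin q → ℕ → ℕ := fun l p => x0 l + (p - 1) * ((W - 1) * φ l c) with hbb
  set Z' : Fin q → ℕ → Finset ℕ := fun l p =>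
    (range p).filter (fun y => (bb l p + W * (y + (p - 1))) % p ∈ Z l p) with hZ'
  have hcardZ' : ∀ l, ∀ p ∈ Pr s Y, (Z' l p).card = (Z l p).card := by
    intro l p hp
    exact card_pull (Pr_prime hp) (hWp p hp) (hZ l p hp).2
  have hSv : ∀ l, Sv r s Y (Z' l) := by
    intro l p hp
    refine ⟨by rw [hcardZ' l p hp]; exact (hZ l p hp).1, ?_⟩
    intro c hc
    rw [hZ', mem_filter, mem_range] at hc
    exact hc.1
  have hVVeq : ∀ l, VV (Z' l) s Y = VV (Z l) s Y := by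
    intro l
    unfold VV
    apply prod_congr rfl
    intro p hp
    rw [hcardZ' l p hp]
  have hPC : ∀ l, PC e s Y N (φ' l) := by
    intro l p hp c'
    refine le_trans ?_ (hφ2 l p hp ((W * c' + (p - 1) * ((W - 1) * φ l c)) % p))
    apply card_le_card_of_injOn (fun y => (c + W * (y + (p - 1))) % p)
    · intro y hy
      rw [mem_coe, mem_image] at hy
      obtain ⟨i, hi, rfl⟩ := hy
      rw [mem_filter, mem_Icc] at hi
      rw [mem_coe, mem_image]
      refine ⟨c + W * (i - 1), ?_, ?_⟩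
      · rw [mem_filter, mem_Icc]
        have h0 : W * (i - 1) ≤ W * (N - 1) := Nat.mul_le_mul_left _ (by omega)
        refine ⟨by omega, ?_⟩
        have h1 := hWφ l i hi.1.1 hi.1.2
        have h2 : φ l (c + W * (i - 1)) + p * ((W - 1) * φ l c) =
            W * φ' l i + (p - 1) * ((W - 1) * φ l c) := by
          rw [h1]
          obtain ⟨w, hw⟩ : ∃ w, p = w + 1 := ⟨p - 1, by have := (Pr_prime hp).pos; omega⟩
          rw [hw, Nat.add_sub_cancel]
          ring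
        have h3 : φ l (c + W * (i - 1)) % p =
            (φ l (c + W * (i - 1)) + p * ((W - 1) * φ l c)) % p := by
          rw [Nat.add_mul_mod_self_left]
        rw [h3, h2]
        have h4 : W * φ' l i + (p - 1) * ((W - 1) * φ l c) ≡
            W * c' + (p - 1) * ((W - 1) * φ l c) [MOD p] := by
          apply Nat.ModEq.add_right
          apply Nat.ModEq.mul_left
          rw [← hi.2]
          exact (Nat.mod_modEq _ _).symm
        exact h4
      · exact (pull_eq (Pr_prime hp).pos hi.1.1).symm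
    · refine (pull_inj (Pr_prime hp) (hWp p hp)).mono ?_
      intro y hy
      rw [mem_coe, mem_image] at hy
      obtain ⟨i, _, rfl⟩ := hy
      rw [mem_coe, mem_range]
      exact Nat.mod_lt _ (Pr_prime hp).pos
  -- the new set
  set T' : Finset ((Fin q → ℕ) × ℕ) := T.image (fun t => (fun l => t.1 l / W + 1,
    (t.2 - c) / W + 1)) with hT'
  have hi' : ∀ i', 1 ≤ i' → (c + W * (i' - 1) - c) / W + 1 = i' := by
    intro i' h
    rw [Nat.add_sub_cancel_left, Nat.mul_div_cancel_left _ hW1]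
    omega
  have hTc : T'.card = T.card := by
    apply card_image_of_injOn
    intro t ht t' ht' h
    rw [mem_coe] at ht ht'
    have h1 : (fun l => t.1 l / W + 1) = fun l => t'.1 l / W + 1 := congrArg Prod.fst h
    have h2 : (t.2 - c) / W + 1 = (t'.2 - c) / W + 1 := congrArg Prod.snd h
    obtain ⟨i, hi1, _, hi⟩ := hTi t ht
    obtain ⟨j, hj1, _, hj⟩ := hTi t' ht'
    rw [hi, hj, hi' i hi1, hi' j hj1] at h2
    apply Prod.ext
    · ext l
      have h3 := congrFun h1 l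
      have h4 : t.1 l / W = t'.1 l / W := by
        have : t.1 l / W + 1 = t'.1 l / W + 1 := h3
        omega
      rw [← Nat.div_add_mod (t.1 l) W, ← Nat.div_add_mod (t'.1 l) W, h4, hTx t ht, hTx t' ht']
    · rw [hi, hj, h2]
  have hT'A : ∀ t ∈ T', t.1 ∈ bx (fun l => A l / W) (fun l => Xs l / W + 2) ∧ 1 ≤ t.2 ∧
      2 * t.2 < N := by
    intro t' ht'
    rw [hT', mem_image] at ht'
    obtain ⟨t, ht, rfl⟩ := ht'
    refine ⟨?_, Nat.le_add_left _ _, ?_⟩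
    · have h0 := hTA t ht
      unfold bx at h0 ⊢
      rw [Fintype.mem_piFinset] at h0 ⊢
      intro l
      have h1 := mem_Ioc.1 (h0 l)
      show t.1 l / W + 1 ∈ Ioc (A l / W) (A l / W + (Xs l / W + 2))
      rw [mem_Ioc]
      have h2 : A l / W ≤ t.1 l / W := Nat.div_le_div_right h1.1.le
      have h3 : t.1 l / W ≤ (A l + Xs l) / W := Nat.div_le_div_right h1.2
      have h4 : (A l + Xs l) / W < A l / W + Xs l / W + 2 := by
        rw [Nat.div_lt_iff_lt_mul hW1]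
        have h5 := Nat.div_add_mod (A l) W
        have h6 := Nat.div_add_mod (Xs l) W
        have h7 := Nat.mod_lt (A l) hW1
        have h8 := Nat.mod_lt (Xs l) hW1
        have h9 : (A l / W + Xs l / W + 2) * W = W * (A l / W) + W * (Xs l / W) + 2 * W := by ring
        rw [h9]
        generalize W * (A l / W) = u at *
        generalize W * (Xs l / W) = v at *
        generalize A l % W = u' at *
        generalize Xs l % W = v' at *
        omega
      generalize A l / W = u at *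
      generalize Xs l / W = v at *
      generalize t.1 l / W = n' at *
      generalize (A l + Xs l) / W = m' at *
      omega
    · obtain ⟨i, hi1, hi2, hi⟩ := hTi t ht
      show 2 * ((t.2 - c) / W + 1) < N
      rw [hi, hi' i hi1]
      exact hi2
  have hT'Z : ∀ t ∈ T', ∀ l, ∀ p ∈ Pr s Y, (t.1 l + φ' l t.2) % p ∉ Z' l p := by
    intro t' ht' l p hp
    rw [hT', mem_image] at ht'
    obtain ⟨t, ht, rfl⟩ := ht'
    obtain ⟨i, hi1, hi2, hi⟩ := hTi t ht
    have h4 := hTZ t ht l p hp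
    show (t.1 l / W + 1 + φ' l ((t.2 - c) / W + 1)) % p ∉ Z' l p
    have h2 : (t.2 - c) / W + 1 = i := by rw [hi, hi' i hi1]
    rw [h2, hZ', mem_filter]
    rintro ⟨_, h5⟩
    apply h4
    rw [pull_eq (Pr_prime hp).pos (by generalize t.1 l / W = a; omega)] at h5
    have h6 : (bb l p + W * (t.1 l / W + 1 + φ' l i - 1)) % p = (t.1 l + φ l t.2) % p := by
      have h7 : t.1 l / W + 1 + φ' l i - 1 = t.1 l / W + φ' l i := by
        generalize t.1 l / W = a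
        omega
      have h8 := Nat.div_add_mod (t.1 l) W
      rw [hTx t ht l] at h8
      have h9 := hWφ l i hi1 (by omega)
      rw [← hi] at h9
      rw [h7, hbb]
      have h10 : x0 l + (p - 1) * ((W - 1) * φ l c) + W * (t.1 l / W + φ' l i) =
          t.1 l + φ l t.2 + p * ((W - 1) * φ l c) := by
        rw [mul_add, h9]
        obtain ⟨w, hw⟩ : ∃ w, p = w + 1 := ⟨p - 1, by have := (Pr_prime hp).pos; omega⟩
        rw [hw, Nat.add_sub_cancel]
        have : (w + 1) * ((W - 1) * φ l c) = w * ((W - 1) * φ l c) + (W - 1) * φ l c := by ring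
        rw [this]
        omega
      show (x0 l + (p - 1) * ((W - 1) * φ l c) + W * (t.1 l / W + φ' l i)) % p = _
      rw [h10, Nat.add_mul_mod_self_left]
    rwa [h6] at h5
  obtain ⟨x, b, d, hd1, hdN, had⟩ := hPA Z' hSv φ' hPC T' hT'A hT'Z (by
    rw [hTc]
    simp only [hVVeq]
    exact hcard)
  have hb1 : 1 ≤ b := by
    have h1 := had 0 hk
    rw [zero_mul, add_zero] at h1
    exact (hT'A _ h1).2.1
  refine ⟨fun l => W * (x l - 1) + x0 l, c + W * (b - 1), W * d, Nat.mul_pos hW1 hd1,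
    Nat.mul_le_mul_left _ hdN.le, ?_⟩
  intro j hj
  have h1 := had j hj
  rw [hT', mem_image] at h1
  obtain ⟨t, ht, hte⟩ := h1
  have h2 : (fun l => t.1 l / W + 1) = x := congrArg Prod.fst hte
  have h3 : (t.2 - c) / W + 1 = b + j * d := congrArg Prod.snd hte
  obtain ⟨i, hi1, _, hi⟩ := hTi t ht
  rw [hi, hi' i hi1] at h3
  have h4 : t = (fun l => W * (x l - 1) + x0 l, c + W * (b - 1) + j * (W * d)) := by
    apply Prod.ext
    · ext l
      show t.1 l = W * (x l - 1) + x0 l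
      have h5 := congrFun h2 l
      have h6 : x l - 1 = t.1 l / W := by
        have : t.1 l / W + 1 = x l := h5
        rw [← this]
        exact Nat.add_sub_cancel _ _
      rw [h6, ← hTx t ht l]
      exact (Nat.div_add_mod _ _).symm
    · show t.2 = c + W * (b - 1) + j * (W * d)
      rw [hi, h3]
      obtain ⟨b', hb'⟩ : ∃ b', b = b' + 1 := ⟨b - 1, by omega⟩
      have h7 : b + j * d - 1 = b' + j * d := by omega
      rw [h7, hb', Nat.add_sub_cancel]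
      ring
  rw [← h4]
  exact ht


/-- the choice of the prime `N` -/
theorem exists_N (B₁ W : ℕ) : ∃ X₀ : ℕ, ∀ X : ℕ, X₀ ≤ X → ∃ N : ℕ, N.Prime ∧ 5 ≤ N ∧
    (2 * Real.log X) ^ B₁ ≤ N ∧ 2 * (W : ℝ) * N ≤ Real.log X ^ (B₁ + 2) := by
  obtain ⟨X₀, hX₀⟩ := log_ge (5 + 2 ^ B₁ + 8 * W)
  refine ⟨X₀, fun X hX => ?_⟩
  have hl := hX₀ X hX
  have hW : (0 : ℝ) ≤ W := Nat.cast_nonneg W
  have h2 : (0 : ℝ) < 2 ^ B₁ := by positivity
  have hl5 : 5 ≤ Real.log X := by linarith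
  have hlB : 2 ^ B₁ ≤ Real.log X := by linarith
  have hlW : 8 * (W : ℝ) ≤ Real.log X := by linarith
  set l := Real.log X
  have hl0 : 0 < l := by linarith
  set n₀ := ⌈l ^ (B₁ + 1)⌉₊
  have hpow : 5 ≤ l ^ (B₁ + 1) := by
    calc (5 : ℝ) ≤ l := hl5
      _ = l ^ 1 := (pow_one _).symm
      _ ≤ l ^ (B₁ + 1) := pow_le_pow_right₀ (by linarith) (by omega)
  have hn1 : l ^ (B₁ + 1) ≤ n₀ := Nat.le_ceil _
  have hn2 : (n₀ : ℝ) < l ^ (B₁ + 1) + 1 := Nat.ceil_lt_add_one (by positivity)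
  have hn5 : 5 ≤ n₀ := by exact_mod_cast hpow.trans hn1
  obtain ⟨N, hN, hN1, hN2⟩ := Nat.exists_prime_lt_and_le_two_mul n₀ (by omega)
  refine ⟨N, hN, by omega, ?_, ?_⟩
  · rw [mul_pow]
    calc 2 ^ B₁ * l ^ B₁ ≤ l * l ^ B₁ := by gcongr
      _ = l ^ (B₁ + 1) := by ring
      _ ≤ n₀ := hn1
      _ ≤ N := by exact_mod_cast hN1.le
  · have h3 : (N : ℝ) ≤ 2 * n₀ := by exact_mod_cast hN2
    calc 2 * (W : ℝ) * N ≤ 2 * W * (4 * l ^ (B₁ + 1)) := by
          apply mul_le_mul_of_nonneg_left _ (by positivity)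
          linarith
      _ = (8 * W) * l ^ (B₁ + 1) := by ring
      _ ≤ l * l ^ (B₁ + 1) := by gcongr
      _ = l ^ (B₁ + 2) := by ring

/-- sizes of the parameters -/
theorem sizes {κ : ℝ} (hκ : 0 < κ) {L : ℕ} (hL1 : 2 / κ ≤ L) (hL2 : 2 * κ ≤ L) (s X₁ : ℕ)
    {W : ℕ} (hW1 : 1 ≤ W) : ∃ X₀ : ℕ, ∀ X : ℕ, X₀ ≤ X → 4 ≤ X ∧ s ≤ ⌊(X : ℝ) ^ κ⌋₊ ∧
      X₁ ≤ X / W + 2 ∧ X / W + 2 ≤ ⌊(X : ℝ) ^ κ⌋₊ ^ L ∧ ⌊(X : ℝ) ^ κ⌋₊ ≤ (X / W + 2) ^ L ∧
      2 * W ≤ X ∧ Real.log ((X / W + 2 : ℕ) : ℝ) ≤ 2 * Real.log X := by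
  have hW0 : (0 : ℝ) < W := by exact_mod_cast hW1
  obtain ⟨X₃, hX₃⟩ := log_ge (Real.log (s + 2) / κ)
  refine ⟨max (W * X₁) (max X₃ (max (W ^ 2) (max (4 * W) (2 ^ (L + 2))))), ?_⟩
  intro X hX
  have hXX₁ : W * X₁ ≤ X := (le_max_left _ _).trans hX
  have hXX₃ := hX₃ X ((le_max_left _ _).trans ((le_max_right _ _).trans hX))
  have hX' := (le_max_right _ _).trans ((le_max_right _ _).trans hX)
  have hXX₄ : W ^ 2 ≤ X := (le_max_left _ _).trans hX'
  have hXX₅ : 4 * W ≤ X := (le_max_left _ _).trans ((le_max_right _ _).trans hX')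
  have hXX₆ : 2 ^ (L + 2) ≤ X := (le_max_right _ _).trans ((le_max_right _ _).trans hX')
  have hX4 : 4 ≤ X := by omega
  have hX0 : (0 : ℝ) < X := by exact_mod_cast (show 0 < X by omega)
  have hX1 : (1 : ℝ) ≤ X := by exact_mod_cast (show 1 ≤ X by omega)
  set Y := ⌊(X : ℝ) ^ κ⌋₊ with hY
  have hXκ0 : 0 < (X : ℝ) ^ κ := by positivity
  have hYle : (Y : ℝ) ≤ (X : ℝ) ^ κ := Nat.floor_le hXκ0.le
  have hYlt : (X : ℝ) ^ κ < Y + 1 := Nat.lt_floor_add_one _
  have hs2 : ((s : ℝ) + 2) ≤ (X : ℝ) ^ κ := by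
    rw [Real.rpow_def_of_pos hX0, ← Real.log_le_iff_le_exp (by positivity)]
    rw [div_le_iff₀ hκ] at hXX₃
    exact hXX₃
  have hsY : s + 2 ≤ Y := by
    rw [hY]
    apply Nat.le_floor
    push_cast
    exact hs2
  have hYhalf : (X : ℝ) ^ κ ≤ 2 * Y := by
    have : (1 : ℝ) ≤ Y := by exact_mod_cast (show 1 ≤ Y by omega)
    linarith
  set X' := X / W + 2 with hX'def
  have hXW : (X : ℝ) / W ≤ X' := by
    rw [hX'def, div_le_iff₀ hW0]
    have h1 := Nat.div_add_mod X W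
    have h2 := Nat.mod_lt X hW1
    have h3 : X ≤ (X / W + 2) * W := by nlinarith
    exact_mod_cast h3
  have hX'X : X' ≤ 2 * X := by
    have := Nat.div_le_self X W
    omega
  have hXX' : X₁ ≤ X' := by
    have : X₁ ≤ X / W := (Nat.le_div_iff_mul_le hW1).2 (by rwa [mul_comm])
    omega
  have hX'Y : X' ≤ Y ^ L := by
    have h1 : (2 * X : ℝ) ≤ (Y : ℝ) ^ L := by
      have h2 : ((X : ℝ) ^ κ) ^ L ≤ (2 * (Y : ℝ)) ^ L := pow_le_pow_left₀ hXκ0.le hYhalf L
      have h3 : (X : ℝ) ^ 2 ≤ ((X : ℝ) ^ κ) ^ L := by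
        rw [← Real.rpow_natCast ((X : ℝ) ^ κ) L, ← Real.rpow_mul hX0.le, ← Real.rpow_natCast (X : ℝ) 2]
        apply Real.rpow_le_rpow_of_exponent_le hX1
        rw [div_le_iff₀ hκ] at hL1
        push_cast
        linarith
      rw [mul_pow] at h2
      have h4 : (2 : ℝ) ^ (L + 2) ≤ X := by exact_mod_cast hXX₆
      have h5 : (2 : ℝ) ^ L * (2 * X) ≤ 2 ^ L * (Y : ℝ) ^ L := by
        refine le_trans ?_ (h3.trans h2)
        have h6 : (2 : ℝ) ^ L * (2 * X) ≤ (2 : ℝ) ^ (L + 2) * X := by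
          rw [pow_add]
          nlinarith [show (0 : ℝ) ≤ 2 ^ L * X by positivity]
        have h7 : (2 : ℝ) ^ (L + 2) * X ≤ X * X := mul_le_mul_of_nonneg_right h4 hX0.le
        rw [← pow_two] at h7
        exact h6.trans h7
      exact le_of_mul_le_mul_left h5 (by positivity)
    have h2 : (X' : ℝ) ≤ (Y : ℝ) ^ L := (by exact_mod_cast hX'X : (X' : ℝ) ≤ 2 * X).trans h1
    exact_mod_cast h2
  have hYX' : Y ≤ X' ^ L := by
    have h1 : (Y : ℝ) ≤ (X' : ℝ) ^ L := by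
      refine hYle.trans ?_
      have h2 : (X : ℝ) ^ (1 / 2 : ℝ) ≤ X' := by
        refine le_trans ?_ hXW
        rw [le_div_iff₀ hW0]
        have h3 : (W : ℝ) ≤ (X : ℝ) ^ (1 / 2 : ℝ) := by
          rw [← Real.sqrt_eq_rpow]
          apply Real.le_sqrt_of_sq_le
          exact_mod_cast hXX₄
        calc (X : ℝ) ^ (1 / 2 : ℝ) * W ≤ (X : ℝ) ^ (1 / 2 : ℝ) * (X : ℝ) ^ (1 / 2 : ℝ) :=
              mul_le_mul_of_nonneg_left h3 (by positivity)
          _ = X := by rw [← Real.rpow_add hX0]; norm_num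
      calc (X : ℝ) ^ κ ≤ (X : ℝ) ^ ((1 / 2 : ℝ) * L) := by
            apply Real.rpow_le_rpow_of_exponent_le hX1
            linarith
        _ = ((X : ℝ) ^ (1 / 2 : ℝ)) ^ L := by
            rw [Real.rpow_mul hX0.le, Real.rpow_natCast]
        _ ≤ (X' : ℝ) ^ L := pow_le_pow_left₀ (by positivity) h2 L
    exact_mod_cast h1
  have hX'2 : 2 ≤ X' := by
    rw [hX'def]
    exact Nat.le_add_left _ _
  have hlogX' : Real.log X' ≤ 2 * Real.log X := by
    have h1 : (X' : ℝ) ≤ (X : ℝ) ^ 2 := by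
      have h2 : X' ≤ X ^ 2 := by nlinarith
      exact_mod_cast h2
    have h3 : Real.log X' ≤ Real.log ((X : ℝ) ^ 2) := by
      apply Real.log_le_log _ h1
      exact_mod_cast (show 0 < X' from lt_of_lt_of_le (by norm_num) hX'2)
    rwa [Real.log_pow] at h3
  exact ⟨hX4, by omega, hXX', hX'Y, hYX', by omega, hlogX'⟩

theorem pigeon {α β : Type*} [DecidableEq β] (T : Finset α) (K : Finset β) (f : α → β)
    (hK : K.Nonempty) (hf : ∀ t ∈ T, f t ∈ K) :
    ∃ b ∈ K, (T.card : ℝ) / K.card ≤ ((T.filter (fun t => f t = b)).card : ℝ) := by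
  apply exists_le_of_sum_le hK
  rw [sum_const, nsmul_eq_mul]
  have h1 := card_eq_sum_card_fiberwise hf
  have h2 : (T.card : ℝ) = ∑ b ∈ K, ((T.filter (fun t => f t = b)).card : ℝ) := by
    exact_mod_cast h1
  rw [← h2, mul_div_cancel₀]
  have : (0 : ℝ) < K.card := by exact_mod_cast hK.card_pos
  exact this.ne'

/-- (GEN) -/
theorem t_GEN (hPA : S_PA) : S_GEN := by
  classical
  intro k q r e p₀ κ δ hκ hδ
  set k' := max k 2 with hk'
  set L := ⌈2 / κ⌉₊ + ⌈2 * κ⌉₊ + 1 with hL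
  have hL1 : 2 / κ ≤ L := by
    rw [hL]; push_cast
    have := Nat.le_ceil (2 / κ)
    have h2 : (0 : ℝ) ≤ (⌈2 * κ⌉₊ : ℝ) := Nat.cast_nonneg _
    linarith
  have hL2 : 2 * κ ≤ L := by
    rw [hL]; push_cast
    have := Nat.le_ceil (2 * κ)
    have h2 : (0 : ℝ) ≤ (⌈2 / κ⌉₊ : ℝ) := Nat.cast_nonneg _
    linarith
  clear_value L
  obtain ⟨s₀, hs₀⟩ := hPA k' (le_max_right _ _) q r e L (δ / (6 * 2 ^ q)) (by positivity)
  set s := max s₀ p₀ with hs
  obtain ⟨B₁, X₁, hX₁⟩ := hs₀ s (le_max_left _ _)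
  have hsp₀ : p₀ ≤ s := le_max_right _ _
  clear_value s
  set W := ∏ p ∈ Pr 0 s, p with hW
  have hW1 : 1 ≤ W := Nat.one_le_iff_ne_zero.2 (prod_ne_zero_iff.2 fun p hp => (Pr_prime hp).ne_zero)
  have hW0 : (0 : ℝ) < W := by exact_mod_cast hW1
  obtain ⟨X₂, hX₂⟩ := exists_N B₁ W
  obtain ⟨X₃, hX₃⟩ := sizes hκ hL1 hL2 s X₁ hW1
  refine ⟨B₁ + 2, max X₂ X₃, ?_⟩
  intro X H hX hXH A Xs hXs Z hZ φ hφ1 hφ2 T hTA hTZ hTc
  obtain ⟨N, hNp, hN5, hNl, hNW⟩ := hX₂ X ((le_max_left _ _).trans hX)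
  obtain ⟨hX4, hsY, hX1', hX'Y, hYX', h2W, hlog⟩ := hX₃ X ((le_max_right _ _).trans hX)
  have hX0 : (0 : ℝ) < X := by exact_mod_cast (show 0 < X by omega)
  have hX1 : (1 : ℝ) ≤ X := by exact_mod_cast (show 1 ≤ X by omega)
  have hXκ0 : 0 < (X : ℝ) ^ κ := by positivity
  set Y := ⌊(X : ℝ) ^ κ⌋₊ with hY
  have hYle : (Y : ℝ) ≤ (X : ℝ) ^ κ := Nat.floor_le hXκ0.le
  have hmemY : ∀ p ∈ Pr 0 Y, p.Prime ∧ (p : ℝ) ≤ (X : ℝ) ^ κ := by
    intro p hp
    rw [Pr_mem] at hp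
    exact ⟨hp.2, (by exact_mod_cast hp.1.2 : (p : ℝ) ≤ Y).trans hYle⟩
  have hsub0 : ∀ p ∈ Pr 0 s, p ∈ Pr 0 Y := by
    intro p hp
    rw [Pr_mem] at hp ⊢
    exact ⟨⟨hp.1.1, by omega⟩, hp.2⟩
  have hsub : ∀ p ∈ Pr s Y, p ∈ Pr 0 Y := by
    intro p hp
    rw [Pr_mem] at hp ⊢
    exact ⟨⟨by omega, hp.1.2⟩, hp.2⟩
  have hndvd : ∀ p ∈ Pr s Y, ¬ p ∣ W := by
    intro p hp hpW
    rw [hW, (Pr_prime hp).prime.dvd_finsetProd_iff] at hpW
    obtain ⟨p', hp', hpp⟩ := hpW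
    have h1 := (Nat.prime_dvd_prime_iff_eq (Pr_prime hp) (Pr_prime hp')).1 hpp
    have h2 := (Pr_mem.1 hp').1.2
    have h3 := (Pr_mem.1 hp).1.1
    omega
  have hVVpos : ∀ l, ∀ a b : ℕ, (∀ p ∈ Pr a b, p ∈ Pr 0 Y) → 0 < VV (Z l) a b := by
    intro l a b hab
    unfold VV
    apply prod_pos
    intro p hp
    obtain ⟨h2, h3⟩ := hmemY p (hab p hp)
    have h4 := (hZ l p h2 h3).2.1
    have hp0 : (0 : ℝ) < p := by exact_mod_cast h2.pos
    have h5 : ((Z l p).card : ℝ) / p < 1 := by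
      rw [div_lt_one hp0]
      exact_mod_cast h4
    linarith
  have hWNH : 2 * W * N ≤ H := by exact_mod_cast hNW.trans hXH
  obtain ⟨N2, hN2⟩ : ∃ N2, N2 = (N - 1) / 2 := ⟨_, rfl⟩
  have hN22 : 2 ≤ N2 := by omega
  have hN23 : N ≤ 3 * N2 := by omega
  have hN2N : 2 * N2 < N := by omega
  have hWN2 : 1 ≤ W * N2 := Nat.mul_pos hW1 (by omega)
  have hWN2H : W * N2 ≤ H := by
    have : W * N2 ≤ W * N := Nat.mul_le_mul_left _ (by omega)
    have h2 : 2 * W * N = W * N + W * N := by ring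
    omega
  set Q := H / (W * N2) + 1 with hQ
  -- the first pigeonhole
  have hmaps : ∀ t ∈ T, ((t.2 - 1) / (W * N2), (t.2 - 1) % W) ∈ range Q ×ˢ range W := by
    intro t ht
    obtain ⟨_, h1, h2⟩ := hTA t ht
    rw [mem_product, mem_range, mem_range]
    refine ⟨?_, Nat.mod_lt _ hW1⟩
    show (t.2 - 1) / (W * N2) < Q
    rw [hQ]
    have : (t.2 - 1) / (W * N2) ≤ H / (W * N2) := Nat.div_le_div_right (by omega)
    omega
  obtain ⟨⟨j, b₀⟩, hjb, hjbT⟩ := pigeon T (range Q ×ˢ range W)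
    (fun t => ((t.2 - 1) / (W * N2), (t.2 - 1) % W))
    (by
      rw [nonempty_product]
      exact ⟨⟨0, mem_range.2 (by rw [hQ]; exact Nat.succ_pos _)⟩, ⟨0, mem_range.2 hW1⟩⟩) hmaps
  rw [mem_product, mem_range, mem_range] at hjb
  have hjQ : j < Q := hjb.1
  have hb₀ : b₀ < W := hjb.2
  set T₁ := T.filter (fun t => ((t.2 - 1) / (W * N2), (t.2 - 1) % W) = (j, b₀)) with hT₁
  set c := j * (W * N2) + b₀ + 1 with hc
  have hjH : j * (W * N2) ≤ H := by
    have h1 : j ≤ H / (W * N2) := by omega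
    exact (Nat.mul_le_mul_right _ h1).trans (Nat.div_mul_le_self _ _)
  have hcN : c + W * (N - 1) ≤ 2 * H := by
    have h1 : W * (N - 1) + W = W * N := by
      obtain ⟨n, hn⟩ : ∃ n, N = n + 1 := ⟨N - 1, by omega⟩
      rw [hn, Nat.add_sub_cancel]
      ring
    have h2 : 2 * W * N = W * N + W * N := by ring
    omega
  have hT₁i : ∀ t ∈ T₁, ∃ i', 1 ≤ i' ∧ 2 * i' < N ∧ t.2 = c + W * (i' - 1) := by
    intro t ht
    rw [hT₁, mem_filter, Prod.mk.injEq] at ht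
    obtain ⟨htT, h1, h2⟩ := ht
    obtain ⟨_, h3, _⟩ := hTA t htT
    refine ⟨(t.2 - 1) / W % N2 + 1, Nat.le_add_left _ _, ?_, ?_⟩
    · have : (t.2 - 1) / W % N2 < N2 := Nat.mod_lt _ (by omega)
      omega
    · rw [Nat.add_sub_cancel, hc]
      have h4 := Nat.div_add_mod (t.2 - 1) W
      have h5 := Nat.div_add_mod ((t.2 - 1) / W) N2
      rw [Nat.div_div_eq_div_mul, h1] at h5
      rw [h2] at h4
      rw [← h5] at h4
      have h6 : W * (N2 * j + (t.2 - 1) / W % N2) = j * (W * N2) + W * ((t.2 - 1) / W % N2) := by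
        ring
      omega
  -- the second pigeonhole
  set adm : Finset (Fin q → ℕ) := Fintype.piFinset (fun l =>
    (range W).filter (fun a => ∀ p ∈ Pr 0 s, (a + φ l c) % p ∉ Z l p)) with hadm
  have hadmc : (adm.card : ℝ) = ∏ l, ((W : ℝ) * VV (Z l) 0 s) := by
    rw [hadm, Fintype.card_piFinset]
    push_cast
    apply prod_congr rfl
    intro l _
    have h1 := card_adm (Z := Z l) (s := s) (φ l c) (fun p hp => by
      obtain ⟨h2, h3⟩ := hmemY p (hsub0 p hp)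
      exact (hZ l p h2 h3).2.2)
    rw [← hW] at h1
    convert h1
  have hadm0 : (0 : ℝ) < adm.card := by
    rw [hadmc]
    apply prod_pos
    intro l _
    exact mul_pos hW0 (hVVpos l 0 s hsub0)
  have hadmne : adm.Nonempty := by
    rw [← card_pos]
    exact_mod_cast hadm0
  have hTH : ∀ t ∈ T, t.2 ∈ Icc 1 (2 * H) := by
    intro t ht
    obtain ⟨_, h1, h2⟩ := hTA t ht
    rw [mem_Icc]
    omega
  have hcH : c ∈ Icc 1 (2 * H) := by
    rw [mem_Icc]
    omega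
  have hmaps₁ : ∀ t ∈ T₁, (fun l => t.1 l % W) ∈ adm := by
    intro t ht
    have htT : t ∈ T := (mem_filter.1 ht).1
    obtain ⟨i', hi1, _, hi⟩ := hT₁i t ht
    rw [hadm, Fintype.mem_piFinset]
    intro l
    rw [mem_filter, mem_range]
    refine ⟨Nat.mod_lt _ hW1, ?_⟩
    intro p hp
    obtain ⟨h2, h3⟩ := hmemY p (hsub0 p hp)
    have h4 := hTZ t htT l p h2 h3
    have hpW : p ∣ W := dvd_prod_of_mem _ hp
    have h5 : t.2 ≡ c [MOD p] := by
      rw [hi]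
      obtain ⟨w, hw⟩ := hpW
      unfold Nat.ModEq
      rw [hw, mul_assoc, Nat.add_mul_mod_self_left]
    have h6 := hφ1 l p _ (hTH t htT) _ hcH h5
    have h7 : (t.1 l % W + φ l c) % p = (t.1 l + φ l t.2) % p := by
      have h8 : t.1 l % W ≡ t.1 l [MOD p] := (Nat.mod_modEq _ _).of_dvd hpW
      exact Nat.ModEq.add h8 h6.symm
    rw [h7]
    exact h4
  obtain ⟨x0, hx0, hx0T⟩ := pigeon T₁ adm (fun t l => t.1 l % W) hadmne hmaps₁
  set T₂ := T₁.filter (fun t => (fun l => t.1 l % W) = x0) with hT₂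
  have hT₂T : ∀ t ∈ T₂, t ∈ T := fun t ht => (mem_filter.1 (mem_filter.1 ht).1).1
  -- the cardinality
  have hcard : δ / (6 * 2 ^ q) * (∏ l, ((Xs l / W + 2 : ℕ) : ℝ)) * N * ∏ l, VV (Z l) s Y ≤
      T₂.card := by
    refine le_trans ?_ hx0T
    rw [le_div_iff₀ hadm0]
    refine le_trans ?_ hjbT
    have hQW : (0 : ℝ) < ((range Q ×ˢ range W).card : ℝ) := by
      rw [card_product, card_range, card_range]
      have : 0 < Q * W := Nat.mul_pos (by omega) hW1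
      exact_mod_cast this
    rw [le_div_iff₀ hQW, hadmc, prod_mul_distrib, prod_const, card_univ, Fintype.card_fin]
    refine le_trans ?_ hTc
    have hsplit : ∏ l, VV (Z l) 0 Y = (∏ l, VV (Z l) 0 s) * ∏ l, VV (Z l) s Y := by
      rw [← prod_mul_distrib]
      apply prod_congr rfl
      intro l _
      rw [VV_split (Z l) (Nat.zero_le s) hsY]
    rw [hsplit]
    have hP0 : 0 < ∏ l, VV (Z l) 0 s := prod_pos fun l _ => hVVpos l 0 s hsub0
    have hP1 : 0 < ∏ l, VV (Z l) s Y := prod_pos fun l _ => hVVpos l s Y hsub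
    have hXW : (W : ℝ) ^ q * ∏ l, ((Xs l / W + 2 : ℕ) : ℝ) ≤ 2 ^ q * ∏ l, (Xs l : ℝ) := by
      have h1 : ∀ l : Fin q, (W : ℝ) * ((Xs l / W + 2 : ℕ) : ℝ) ≤ 2 * (Xs l : ℝ) := by
        intro l
        have h2 := Nat.mul_div_le (Xs l) W
        have h3 := hXs l
        have h4 : W * (Xs l / W + 2) ≤ 2 * Xs l := by
          rw [mul_add]
          omega
        exact_mod_cast h4
      have h5 : ∏ l : Fin q, ((W : ℝ) * ((Xs l / W + 2 : ℕ) : ℝ)) ≤ ∏ l : Fin q, (2 * (Xs l : ℝ)) :=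
        prod_le_prod (fun l _ => by positivity) fun l _ => h1 l
      rw [prod_mul_distrib, prod_mul_distrib, prod_const, prod_const, card_univ,
        Fintype.card_fin] at h5
      exact h5
    have hQWN : (((range Q ×ˢ range W).card : ℕ) : ℝ) * N ≤ 6 * H := by
      rw [card_product, card_range, card_range]
      have h1 : Q * (W * N2) ≤ 2 * H := by
        rw [hQ, add_mul, one_mul]
        have := Nat.div_mul_le_self H (W * N2)
        omega
      have h2 : Q * W * N ≤ 6 * H := by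
        calc Q * W * N ≤ Q * W * (3 * N2) := Nat.mul_le_mul_left _ hN23
          _ = 3 * (Q * (W * N2)) := by ring
          _ ≤ 3 * (2 * H) := Nat.mul_le_mul_left _ h1
          _ = 6 * H := by ring
      exact_mod_cast h2
    have hPX : (0 : ℝ) ≤ ∏ l, (Xs l : ℝ) := prod_nonneg fun l _ => Nat.cast_nonneg _
    generalize (((range Q ×ˢ range W).card : ℕ) : ℝ) = QW at *
    generalize (∏ l, ((Xs l / W + 2 : ℕ) : ℝ)) = PX' at *
    generalize (∏ l, (Xs l : ℝ)) = PX at *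
    generalize (∏ l, VV (Z l) 0 s) = P0 at *
    generalize (∏ l, VV (Z l) s Y) = P1 at *
    have hH0 : (0 : ℝ) ≤ H := Nat.cast_nonneg _
    have hN0 : (0 : ℝ) ≤ N := Nat.cast_nonneg _
    calc δ / (6 * 2 ^ q) * PX' * N * P1 * ((W : ℝ) ^ q * P0) * QW
        = δ / (6 * 2 ^ q) * P0 * P1 * (((W : ℝ) ^ q * PX') * (QW * N)) := by ring
      _ ≤ δ / (6 * 2 ^ q) * P0 * P1 * ((2 ^ q * PX) * (6 * H)) := by
          apply mul_le_mul_of_nonneg_left _ (by positivity)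
          exact mul_le_mul hXW hQWN (by positivity) (by positivity)
      _ = δ * PX * H * (P0 * P1) := by
          field_simp
  obtain ⟨x, b, d, hd1, hd2, had⟩ := core (k := k') (q := q) (r := r) (e := e) (s := s) (Y := Y)
    (N := N) (W := W) (H := H) (c := c) (δ' := δ / (6 * 2 ^ q)) (A := A) (Xs := Xs) (Z := Z)
    (φ := φ) hW1 hndvd
    (by
      intro l p hp
      obtain ⟨h2, h3⟩ := hmemY p (hsub p hp)
      exact ⟨(hZ l p h2 h3).1, (hZ l p h2 h3).2.2⟩)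
    hφ1
    (by
      intro l p hp
      exact hφ2 l p (Pr_prime hp) (lt_of_le_of_lt hsp₀ (Pr_mem.1 hp).1.1))
    (by omega) hcN x0 T₂ (fun t ht => (hTA t (hT₂T t ht)).1)
    (fun t ht l => congrFun (mem_filter.1 ht).2 l)
    (fun t ht => hT₁i t (mem_filter.1 ht).1)
    (by
      intro t ht l p hp
      obtain ⟨h2, h3⟩ := hmemY p (hsub p hp)
      exact hTZ t (hT₂T t ht) l p h2 h3)
    (by
      intro Z' hZ' φ' hφ' T' hT'A hT'Z hT'c
      refine hX₁ (X / W + 2) Y N hX1' hX'Y hYX' hNp ?_ (fun l => A l / W)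
        (fun l => Xs l / W + 2) ?_ Z' hZ' φ' hφ' T' hT'A hT'Z hT'c
      · refine le_trans ?_ hNl
        apply pow_le_pow_left₀ _ hlog
        apply Real.log_nonneg
        exact_mod_cast (show 1 ≤ X / W + 2 by generalize X / W = a; omega)
      · intro l
        have : X / W ≤ Xs l / W := Nat.div_le_div_right (hXs l)
        show X / W + 2 ≤ Xs l / W + 2
        omega)
    (by omega) hcard
  refine ⟨x, b, d, hd1, ?_, ?_⟩
  · have h1 : (d : ℝ) ≤ W * N := by exact_mod_cast hd2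
    have h2 : (W : ℝ) * N ≤ 2 * W * N := by
      have : (0 : ℝ) ≤ W * N := by positivity
      linarith
    exact h1.trans (h2.trans hNW)
  · intro i hi
    exact hT₂T _ (had i (lt_of_lt_of_le hi (le_max_left _ _)))

end Pool.Agent.Y73.LW
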